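import Pool.Agent.RZ.RCM9.Restrict
import Pool.Agent.RZ.RCRSHalf.Pairs

/-! From fractional matchings with all row sums equal to one to all fractional matchings
(MP_73ccd0_lc): `N + 1` copies of the graph, the copies of one vertex joined completely. -/

set_option autoImplicit false
set_option linter.unusedSectionVars false

namespace Pool.Agent.RZ.RCP

open Finset Pool.Agent.RZ.RCRS Pool.Agent.RZ.RCRSHalf

variable {V : Type} [Fintype V] [DecidableEq V]

/-- `N + 1` copies of `G`, the copies of one vertex joined completely -/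
def cpG (G : SimpleGraph V) (N : ℕ) : SimpleGraph (V × Fin (N + 1)) where
  Adj p q := (p.2 = q.2 ∧ G.Adj p.1 q.1) ∨ (p.1 = q.1 ∧ p.2 ≠ q.2)
  symm := ⟨fun p q h => by
    rcases h with h | h
    · exact Or.inl ⟨h.1.symm, h.2.symm⟩
    · exact Or.inr ⟨h.1.symm, fun e => h.2 e.symm⟩⟩
  loopless := ⟨fun p h => by
    rcases h with h | h
    · exact G.loopless.irrefl _ h.2
    · exact h.2 rfl⟩

variable {G : SimpleGraph V} [Fintype G.edgeSet] [DecidableEq G.edgeSet] {N : ℕ}

/-- the weights of the copies as a function of two vertices -/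
noncomputable def cpW (x : G.edgeSet → ℝ) (N : ℕ) (p q : V × Fin (N + 1)) : ℝ :=
  if p.1 = q.1 then defect x p.1 / N else xw x p.1 q.1

theorem cpW_symm (x : G.edgeSet → ℝ) (p q : V × Fin (N + 1)) : cpW x N p q = cpW x N q p := by
  unfold cpW
  by_cases h : p.1 = q.1
  · rw [if_pos h, if_pos h.symm, h]
  · rw [if_neg h, if_neg fun e => h e.symm, xw_symm]

/-- the weights of the copies -/
noncomputable def cpx (x : G.edgeSet → ℝ) (N : ℕ) (e : (cpG G N).edgeSet) : ℝ :=
  cpW x N (exists_rep (e : Sym2 (V × Fin (N + 1)))).choose.1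
    (exists_rep (e : Sym2 (V × Fin (N + 1)))).choose.2

theorem cpx_mk (x : G.edgeSet → ℝ) {p q : V × Fin (N + 1)} (h : s(p, q) ∈ (cpG G N).edgeSet) :
    cpx x N ⟨s(p, q), h⟩ = cpW x N p q := by
  unfold cpx
  have h1 := (exists_rep (s(p, q))).choose_spec
  rcases Sym2.eq_iff.1 h1 with h2 | h2
  · rw [h2.1, h2.2]
  · rw [h2.1, h2.2, cpW_symm]

/-- the first copy of an edge -/
noncomputable def cpI (G : SimpleGraph V) (N : ℕ) : G.edgeSet ↪ (cpG G N).edgeSet where
  toFun e := ⟨Sym2.map (fun v => (v, (0 : Fin (N + 1)))) (e : Sym2 V), by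
    obtain ⟨e, he⟩ := e
    induction e with
    | _ a b => exact Or.inl ⟨rfl, he⟩⟩
  inj' e f h := by
    have h1 := congrArg Subtype.val h
    exact Subtype.ext (Sym2.map.injective (fun a b hab => congrArg Prod.fst hab) h1)

theorem cpx_I (x : G.edgeSet → ℝ) (e : G.edgeSet) : cpx x N (cpI G N e) = x e := by
  obtain ⟨e, he⟩ := e
  induction e with
  | _ a b =>
    have hab : G.Adj a b := he
    have h1 := cpx_mk (N := N) x (p := (a, 0)) (q := (b, 0)) (Or.inl ⟨rfl, hab⟩)
    refine h1.trans ?_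
    unfold cpW
    rw [if_neg hab.ne, xw_adj x hab]

variable [Fintype (cpG G N).edgeSet] [DecidableEq (cpG G N).edgeSet]

/-- all rows of the copies are equal to one -/
theorem cpx_row (x : G.edgeSet → ℝ) (hN : 0 < N) (v : V × Fin (N + 1)) :
    ∑ e : (cpG G N).edgeSet, (if v ∈ (e : Sym2 (V × Fin (N + 1))) then cpx x N e else 0) = 1 := by
  rw [← xw_row (cpx x N) v]
  classical
  have h0 : ∀ w : V × Fin (N + 1), xw (cpx x N) v w
      = if (v.2 = w.2 ∧ G.Adj v.1 w.1) ∨ (v.1 = w.1 ∧ v.2 ≠ w.2) then cpW x N v w else 0 := by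
    intro w
    by_cases h : (v.2 = w.2 ∧ G.Adj v.1 w.1) ∨ (v.1 = w.1 ∧ v.2 ≠ w.2)
    · rw [if_pos h]
      exact (xw_adj (cpx x N) (show (cpG G N).Adj v w from h)).trans (cpx_mk x _)
    · rw [if_neg h]
      exact xw_nadj (cpx x N) (show ¬ (cpG G N).Adj v w from h)
  have h1 : ∀ a : V, ∀ j : Fin (N + 1), xw (cpx x N) v (a, j)
      = (if j = v.2 then xw x v.1 a else 0) + (if a = v.1 then (if j = v.2 then 0 else
          defect x v.1 / N) else 0) := by
    intro a j
    rw [h0]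
    by_cases hj : j = v.2
    · subst hj
      by_cases hadj : G.Adj v.1 a
      · rw [if_pos (Or.inl ⟨rfl, hadj⟩), if_pos rfl]
        unfold cpW
        rw [if_neg hadj.ne, if_neg hadj.ne', add_zero]
      · rw [if_neg, if_pos rfl, xw_nadj x hadj]
        · simp
        · rintro (h | h)
          · exact hadj h.2
          · exact h.2 rfl
    · rw [if_neg hj, zero_add]
      by_cases ha : a = v.1
      · subst ha
        rw [if_pos (Or.inr ⟨rfl, fun h => hj h.symm⟩), if_pos rfl, if_neg hj]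
        unfold cpW
        rw [if_pos rfl]
      · rw [if_neg ha, if_neg]
        rintro (h | h)
        · exact hj h.1.symm
        · exact ha h.1.symm
  rw [Fintype.sum_prod_type]
  simp only [h1]
  simp only [Finset.sum_add_distrib]
  have h2 : ∑ a : V, ∑ j : Fin (N + 1), (if j = v.2 then xw x v.1 a else 0)
      = ∑ a : V, xw x v.1 a := by
    refine Finset.sum_congr rfl fun a _ => ?_
    rw [Finset.sum_ite_eq' Finset.univ v.2, if_pos (Finset.mem_univ _)]
  have h3 : ∑ a : V, ∑ j : Fin (N + 1), (if a = v.1 then (if j = v.2 then 0 else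
      defect x v.1 / N) else 0) = defect x v.1 := by
    rw [Finset.sum_comm]
    have h4 : ∀ j : Fin (N + 1), ∑ a : V, (if a = v.1 then (if j = v.2 then 0 else
        defect x v.1 / N) else 0) = (defect x v.1 / N) - if j = v.2 then defect x v.1 / N else 0 := by
      intro j
      rw [Finset.sum_ite_eq' Finset.univ v.1, if_pos (Finset.mem_univ _)]
      split_ifs <;> ring
    rw [Finset.sum_congr rfl fun j _ => h4 j, Finset.sum_sub_distrib,
      Finset.sum_ite_eq' Finset.univ v.2, if_pos (Finset.mem_univ _), Finset.sum_const,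
      Finset.card_univ, Fintype.card_fin, nsmul_eq_mul]
    have hN' : (N : ℝ) ≠ 0 := by exact_mod_cast hN.ne'
    push_cast
    field_simp
    ring
  rw [h2, h3, xw_row x v.1]
  unfold defect
  ring

theorem cpW_mem {x : G.edgeSet → ℝ} (hx : IsFractionalMatching G x) (hN : 0 < N) {X : ℝ}
    (hX : ∀ e, x e ≤ X) (hNX : 1 / (N : ℝ) ≤ X) (p q : V × Fin (N + 1)) :
    0 ≤ cpW x N p q ∧ cpW x N p q ≤ X := by
  have hN' : (0 : ℝ) < N := by exact_mod_cast hN
  have d0 := defect_nonneg hx p.1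
  have d1 := defect_le_one hx p.1
  unfold cpW
  split_ifs
  · refine ⟨div_nonneg d0 hN'.le, le_trans ?_ hNX⟩
    exact div_le_div_of_nonneg_right d1 hN'.le
  · by_cases h : G.Adj p.1 q.1
    · rw [xw_adj x h]
      exact ⟨(hx.1 _).1, hX _⟩
    · rw [xw_nadj x h]
      exact ⟨le_rfl, (one_div_pos.2 hN').le.trans hNX⟩

/-- the copies form a fractional matching -/
theorem cpx_frac {x : G.edgeSet → ℝ} (hx : IsFractionalMatching G x) (hN : 0 < N) {X : ℝ}
    (hX : ∀ e, x e ≤ X) (hNX : 1 / (N : ℝ) ≤ X) :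
    IsFractionalMatching (cpG G N) (cpx x N) ∧ ∀ e, cpx x N e ≤ X := by
  have h1 : ∀ e, 0 ≤ cpx x N e ∧ cpx x N e ≤ X := fun e => cpW_mem hx hN hX hNX _ _
  have h2 : ∀ e, cpx x N e ≤ 1 := fun e => by
    have hp := (adj_rep e)
    have h3 := cpx_row x hN (fe e)
    rw [← h3]
    have h4 : cpx x N e = if fe e ∈ (e : Sym2 (V × Fin (N + 1))) then cpx x N e else 0 := by
      rw [if_pos]
      rw [← rep e]
      exact Sym2.mem_mk_left _ _
    rw [h4]
    refine Finset.single_le_sum (f := fun e' : (cpG G N).edgeSet =>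
      if fe e ∈ (e' : Sym2 (V × Fin (N + 1))) then cpx x N e' else 0) (fun e' _ => ?_)
      (Finset.mem_univ e)
    show 0 ≤ if fe e ∈ (e' : Sym2 (V × Fin (N + 1))) then cpx x N e' else 0
    split_ifs
    · exact (h1 e').1
    · exact le_rfl
  exact ⟨⟨fun e => ⟨(h1 e).1, h2 e⟩, fun v => (cpx_row x hN v).le⟩, fun e => (h1 e).2⟩

/-- **from row sums equal to one to all fractional matchings** -/
theorem perf_to_gen {X : ℝ} {N : ℕ} (hN : 0 < N) (hNX : 1 / (N : ℝ) ≤ X)
    (H : ∀ (V : Type) [Fintype V] [DecidableEq V] (G : SimpleGraph V) [Fintype G.edgeSet]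
      [DecidableEq G.edgeSet] (x : G.edgeSet → ℝ), IsFractionalMatching G x → (∀ e, x e ≤ X) →
      (∀ v : V, (∑ e : G.edgeSet, if v ∈ (e : Sym2 V) then x e else 0) = 1) →
      ∃ S : Scheme G, ∀ e, S.selProb x e = x e / 2)
    (V : Type) [Fintype V] [DecidableEq V] (G : SimpleGraph V) [Fintype G.edgeSet]
    [DecidableEq G.edgeSet] (x : G.edgeSet → ℝ) (hx : IsFractionalMatching G x)
    (hX : ∀ e, x e ≤ X) : ∃ S : Scheme G, ∀ e, S.selProb x e = x e / 2 := by
  classical
  have : Fintype (cpG G N).edgeSet := Fintype.ofFinite _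
  obtain ⟨h1, h2⟩ := cpx_frac (N := N) hx hN hX hNX
  obtain ⟨S', hS'⟩ := H (V × Fin (N + 1)) (cpG G N) (cpx x N) h1 h2 (fun v => cpx_row x hN v)
  have hι : ∀ e f : G.edgeSet, ∀ v, v ∈ (e : Sym2 V) → v ∈ (f : Sym2 V) →
      ∃ v', v' ∈ (cpI G N e : Sym2 (V × Fin (N + 1))) ∧
        v' ∈ (cpI G N f : Sym2 (V × Fin (N + 1))) := fun e f v he hf =>
    ⟨(v, 0), Sym2.mem_map.2 ⟨v, he, rfl⟩, Sym2.mem_map.2 ⟨v, hf, rfl⟩⟩
  obtain ⟨S, hS⟩ := Pool.Agent.RZ.RCM9.restrict (cpI G N) hι (x := cpx x N) h1.1 S'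
  refine ⟨S, fun e => ?_⟩
  have h3 : (fun e => cpx x N (cpI G N e)) = x := funext fun e => cpx_I x e
  have h4 := hS e
  rw [h3] at h4
  rw [h4, hS', cpx_I]

end Pool.Agent.RZ.RCP
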