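import Pool.Agent.RZ.RCO.FinH
import Pool.Agent.RZ.RCP.Perf

/-! The final theorem of the class of small weights from the closures and the graph inequalities
(MP_73ccd0_lc). -/

namespace Pool.Agent.RZ.RCP

open Pool.Agent.RZ.RCRS Pool.Agent.RZ.RCO Pool.Agent.RZ.RCE Pool.Agent.RZ.RCG Pool.Agent.RZ.RCN Pool.Agent.RZ.RCN.K

/-- **selection probability exactly `x e / 2` for all graphs and all weights at most `XM`**, from
the closures, the densities, the gap and the graph inequalities of the class with row sums one -/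
theorem half_X {p : Ps} (hp : p.Ok) {q : TDt5} {g : GDatN}
    (hq : DnN p q) (hg : g.Pos p.d q) (hB : g.Bd) (H : C2In p q)
    (V : Type) [Fintype V] [DecidableEq V] (G : SimpleGraph V) [Fintype G.edgeSet]
    [DecidableEq G.edgeSet] (x : G.edgeSet → ℝ) (hx : IsFractionalMatching G x)
    (hX : ∀ e, x e ≤ XM) : ∃ S : Scheme G, ∀ e, S.selProb x e = x e / 2 :=
  perf_to_gen (X := XM) (N := xN) (Nat.lt_of_lt_of_le Nat.zero_lt_two two_le_xN) le_rfl
    (half_of_C2 hp hq hg hB H) V G x hx hX

end Pool.Agent.RZ.RCP
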